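import Pool.Agent.W23.SG.Defs
import Pool.Agent.H442R2.BX.Bk

/-!
SG project (owner helper23), task BKF2: one coarse block, factorable moduli, with the sum of squares
of the coefficients.  Adapted from `Pool.Agent.W397.DC.BKF`.
-/

namespace Pool.Agent.W973.SG

open Finset
open Pool.Agent.H442R2
open Pool.Agent.H442R2.KF
open Pool.Agent.H442R2.BX (Df rf CofR nuS)
open Pool.Agent.W23.DC
open Pool.Agent.W23.SG

/-- numbers only -/
theorem num2 {x Q e0 C1 C2 C3 n1 n2 η Fs lz E SY Sa c : ℝ} (hx : 2 ≤ x)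
    (he0 : 0 < e0) (hC1 : 0 < C1) (hC2 : 0 < C2) (hC3 : 0 < C3) (hη1 : η ≤ n1) (hη2 : η ≤ 2 * n2)
    (hc : 0 ≤ c) (hlz : e0 / 2 * Real.log x ≤ lz) (hFs0 : 0 ≤ Fs) (hFs : Fs ≤ Q) (hQ : Q ≤ x)
    (hSY : SY ≤ 25 * Fs * (C2 * x / lz + c * (C1 * x ^ (1 - n1))))
    (hE0 : 0 ≤ E) (hE : E ≤ 3 * C3 * x ^ (1 - n2)) (hSa : Sa ≤ 2 * SY + 2 * c * E ^ 2) :
    Sa ≤ (50 * C2 * (2 / e0) + 50 * C1 + 18 * C3 ^ 2) *
      (Q * (x / Real.log x) + c * x ^ (2 - η)) := by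
  have hx0 : 0 < x := by linarith
  have hx1 : 1 ≤ x := by linarith
  have hL0 : 0 < Real.log x := Real.log_pos (by linarith)
  have hy : 0 < x / Real.log x := div_pos hx0 hL0
  have hlz0 : 0 < lz := lt_of_lt_of_le (by positivity) hlz
  have h1 : x / lz ≤ 2 / e0 * (x / Real.log x) := by
    rw [div_le_iff₀ hlz0]
    calc x = 2 / e0 * (x / Real.log x) * (e0 / 2 * Real.log x) := by field_simp
      _ ≤ 2 / e0 * (x / Real.log x) * lz := by gcongr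
  have h2 : C2 * x / lz ≤ C2 * (2 / e0) * (x / Real.log x) := by
    calc C2 * x / lz = C2 * (x / lz) := by ring
      _ ≤ C2 * (2 / e0 * (x / Real.log x)) := by gcongr
      _ = _ := by ring
  have hQ0 : 0 ≤ Q := hFs0.trans hFs
  have hp : 0 ≤ x ^ (2 - η) := Real.rpow_nonneg hx0.le _
  have h3 : x * x ^ (1 - n1) ≤ x ^ (2 - η) := by
    calc x * x ^ (1 - n1) = x ^ (1 + (1 - n1)) := by
          rw [Real.rpow_add hx0, Real.rpow_one]
      _ ≤ x ^ (2 - η) := Real.rpow_le_rpow_of_exponent_le hx1 (by linarith)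
  have h4 : (x ^ (1 - n2)) ^ 2 ≤ x ^ (2 - η) := by
    rw [← Real.rpow_natCast (x ^ (1 - n2)) 2, ← Real.rpow_mul hx0.le]
    apply Real.rpow_le_rpow_of_exponent_le hx1
    push_cast
    linarith
  have h5 : E ^ 2 ≤ 9 * C3 ^ 2 * x ^ (2 - η) := by
    calc E ^ 2 ≤ (3 * C3 * x ^ (1 - n2)) ^ 2 := pow_le_pow_left₀ hE0 hE 2
      _ = 9 * C3 ^ 2 * (x ^ (1 - n2)) ^ 2 := by ring
      _ ≤ 9 * C3 ^ 2 * x ^ (2 - η) := by gcongr
  have h6 : SY ≤ 25 * (C2 * (2 / e0)) * (Q * (x / Real.log x)) + 25 * C1 * (c * x ^ (2 - η)) := by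
    calc SY ≤ 25 * Fs * (C2 * x / lz + c * (C1 * x ^ (1 - n1))) := hSY
      _ = 25 * Fs * (C2 * x / lz) + 25 * C1 * (c * (Fs * x ^ (1 - n1))) := by ring
      _ ≤ 25 * Q * (C2 * (2 / e0) * (x / Real.log x)) + 25 * C1 * (c * (x * x ^ (1 - n1))) := by
          have := hFs.trans hQ
          gcongr
      _ ≤ 25 * Q * (C2 * (2 / e0) * (x / Real.log x)) + 25 * C1 * (c * x ^ (2 - η)) := by
          gcongr
      _ = _ := by ring
  have h7 : 2 * c * E ^ 2 ≤ 18 * C3 ^ 2 * (c * x ^ (2 - η)) := by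
    calc 2 * c * E ^ 2 ≤ 2 * c * (9 * C3 ^ 2 * x ^ (2 - η)) := by gcongr
      _ = _ := by ring
  have h8 : 0 ≤ Q * (x / Real.log x) := by positivity
  have h9 : 0 ≤ c * x ^ (2 - η) := by positivity
  have h10 : 0 ≤ 50 * C2 * (2 / e0) := by positivity
  have h11 : 0 ≤ (50 * C1 + 18 * C3 ^ 2) * (Q * (x / Real.log x)) := by positivity
  have h12 : 0 ≤ 50 * C2 * (2 / e0) * (c * x ^ (2 - η)) := by positivity
  nlinarith

/-- the case of small `N` -/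
theorem num3 {x M η Sa c C Q : ℝ} (hx : 2 ≤ x) (hη : η ≤ 2) (hc : 0 ≤ c) (hC : 0 ≤ C)
    (hM : x ≤ M) (hQ : 0 ≤ Q) (hSa : Sa ≤ c * (4 * x ^ 4)) :
    Sa ≤ (C + 4 * M ^ 4) * (Q * (x / Real.log x) + c * x ^ (2 - η)) := by
  have hx0 : 0 < x := by linarith
  have hx1 : 1 ≤ x := by linarith
  have hL0 : 0 < Real.log x := Real.log_pos (by linarith)
  have h1 : 1 ≤ x ^ (2 - η) := Real.one_le_rpow hx1 (by linarith)
  have h2 : x ^ 4 ≤ M ^ 4 := pow_le_pow_left₀ hx0.le hM 4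
  have h3 : 0 ≤ Q * (x / Real.log x) := by positivity
  have hM0 : 0 ≤ M := by linarith
  calc Sa ≤ c * (4 * x ^ 4) := hSa
    _ ≤ c * (4 * M ^ 4) := by gcongr
    _ = 4 * M ^ 4 * (c * 1) := by ring
    _ ≤ 4 * M ^ 4 * (c * x ^ (2 - η)) := by gcongr
    _ ≤ (C + 4 * M ^ 4) * (c * x ^ (2 - η)) := by
        apply mul_le_mul_of_nonneg_right _ (by positivity)
        linarith
    _ ≤ (C + 4 * M ^ 4) * (Q * (x / Real.log x) + c * x ^ (2 - η)) := by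
        apply mul_le_mul_of_nonneg_left _ (by positivity)
        linarith

theorem Q2_nonneg (f : ℕ → ℝ) (N : ℕ) : 0 ≤ Q2 f N := sum_nonneg fun _ _ => sq_nonneg _

theorem Q2_le {f : ℕ → ℝ} (hf : ∀ p, |f p| ≤ 1) (N : ℕ) : Q2 f N ≤ N := by
  unfold Q2
  refine (sum_le_card_nsmul _ _ 1 (fun p _ => ?_)).trans ?_
  · rw [← sq_abs]
    exact pow_le_one₀ (abs_nonneg _) (hf p)
  · rw [nsmul_eq_mul, mul_one]
    have := card_filter_le (Icc 1 N) Nat.Prime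
    rw [Nat.card_Icc] at this
    exact_mod_cast (by omega : ((Icc 1 N).filter Nat.Prime).card ≤ N)

theorem BKF2 (hTTF : St_TTF) (hDI : BX.St_DI) (hDU : BX.St_DU) (hPR : BX.St_PR)
    (hWXS : St_WXS) (hEX : BX.St_EX) : St_BKF2 := by
  intro θ δ ε hθ1 hθ hδ hε
  obtain ⟨e1, n1, C1, he1, hn1, hC1, tt⟩ := hTTF θ δ ε hθ1 hθ hδ hε
  obtain ⟨N2, C2, hC2, di⟩ := hDI ε hε
  obtain ⟨N3, C3, hC3, pr⟩ := hPR ε hε
  obtain ⟨e0, he0, he01, he04⟩ : ∃ e0 : ℝ, 0 < e0 ∧ e0 ≤ e1 ∧ e0 ≤ 1 / 4 :=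
    ⟨min e1 (1 / 4), lt_min he1 (by norm_num), min_le_left _ _, min_le_right _ _⟩
  obtain ⟨n2, hn2, hn24, hn2e⟩ : ∃ n2 : ℝ, 0 < n2 ∧ n2 ≤ 1 / 4 ∧ n2 ≤ ε / 2 :=
    ⟨min (1 / 4) (ε / 2), lt_min (by norm_num) (by linarith), min_le_left _ _, min_le_right _ _⟩
  obtain ⟨η, hη, hη1, hη2⟩ : ∃ η : ℝ, 0 < η ∧ η ≤ n1 ∧ η ≤ n2 :=
    ⟨min n1 n2, lt_min (by linarith) hn2, min_le_left _ _, min_le_right _ _⟩
  obtain ⟨N5, hN5⟩ : ∃ N5 : ℕ, ∀ N : ℕ, N5 ≤ N → (2 : ℝ) ≤ (N : ℝ) ^ (e0 / 2) := by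
    have := ((tendsto_rpow_atTop (half_pos he0)).comp
      (tendsto_natCast_atTop_atTop (R := ℝ))).eventually_ge_atTop 2
    exact Filter.eventually_atTop.1 this
  have hCb : 0 < 50 * C2 * (2 / e0) + 50 * C1 + 18 * C3 ^ 2 := by positivity
  obtain ⟨M, hM⟩ : ∃ M : ℕ, M = N2 + N3 + N5 + 2 := ⟨_, rfl⟩
  refine ⟨e0, η, 50 * C2 * (2 / e0) + 50 * C1 + 18 * C3 ^ 2 + 4 * (M : ℝ) ^ 4, he0, hη,
    by positivity, ?_⟩
  intro N D0 X hN hXθ hD0 hXD f hf A hA T hT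
  have hNr : (2 : ℝ) ≤ N := by exact_mod_cast hN
  have hN0 : (0 : ℝ) < N := by linarith
  have hN1 : (1 : ℝ) ≤ N := by linarith
  have hXN' : (X : ℝ) ≤ (N : ℝ) ^ (3 / 4 : ℝ) :=
    hXθ.trans (Real.rpow_le_rpow_of_exponent_le hN1 (by linarith))
  have hXN : X ≤ N := by
    have : (X : ℝ) ≤ N := hXN'.trans (by
      calc (N : ℝ) ^ (3 / 4 : ℝ) ≤ (N : ℝ) ^ (1 : ℝ) :=
            Real.rpow_le_rpow_of_exponent_le hN1 (by norm_num)
        _ = N := Real.rpow_one _)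
    exact_mod_cast this
  rcases lt_or_ge N M with hNM | hNM
  · refine num3 hNr (by linarith) (Nat.cast_nonneg _) hCb.le (by exact_mod_cast hNM.le)
      (Q2_nonneg f N) ?_
    calc ∑ a ∈ A, (∑ d ∈ T a, |Df f N a d|) ^ 2 ≤ ∑ a ∈ A, 4 * (N : ℝ) ^ 4 := by
          refine sum_le_sum fun a ha => BX.TaskBK.small hf fun d hd => ?_
          obtain ⟨h1, h2, -⟩ := hT a ha d hd
          rw [mem_Icc]
          omega
      _ = A.card * (4 * (N : ℝ) ^ 4) := by rw [sum_const, nsmul_eq_mul]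
  · have hL0 : 0 < Real.log N := Real.log_pos (by linarith)
    have hg2 : (2 : ℝ) ≤ (N : ℝ) ^ (e0 / 2) := hN5 N (by omega)
    obtain ⟨g, hg⟩ : ∃ g : ℝ, g = (N : ℝ) ^ (e0 / 2) := ⟨_, rfl⟩
    rw [← hg] at hg2
    have hgg : (N : ℝ) ^ e0 = g * g := by
      rw [hg, ← Real.rpow_add hN0]
      congr 1
      ring
    obtain ⟨z, hz⟩ : ∃ z : ℕ, z = ⌊(N : ℝ) ^ e0⌋₊ := ⟨_, rfl⟩
    have hz1 : (z : ℝ) ≤ (N : ℝ) ^ e0 := by
      rw [hz]
      exact Nat.floor_le (Real.rpow_nonneg hN0.le _)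
    have hz2 : (N : ℝ) ^ e0 < z + 1 := by
      rw [hz]
      exact Nat.lt_floor_add_one _
    have hgz : g ≤ z := by
      rw [hgg] at hz2
      nlinarith
    have hz3 : 2 ≤ z := by
      have : (2 : ℝ) ≤ z := hg2.trans hgz
      exact_mod_cast this
    have hz4 : (z : ℝ) ≤ (N : ℝ) ^ (1 / 4 : ℝ) :=
      hz1.trans (Real.rpow_le_rpow_of_exponent_le hN1 he04)
    have hz5 : (z : ℝ) ≤ (N : ℝ) ^ e1 := hz1.trans (Real.rpow_le_rpow_of_exponent_le hN1 he01)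
    have hlz : e0 / 2 * Real.log N ≤ Real.log z := by
      rw [← Real.log_rpow hN0, ← hg]
      exact Real.log_le_log (by linarith) hgz
    have hlz0 : 0 < Real.log z := lt_of_lt_of_le (by positivity) hlz
    have hXD' : (X : ℝ) ≤ (N : ℝ) ^ e1 * D0 := by
      refine hXD.trans ?_
      have := Real.rpow_le_rpow_of_exponent_le hN1 he01
      gcongr
    obtain ⟨lam, hlams⟩ := hWXS z hz3
    have hlam := hlams.sw
    have hc : ∀ a : ℤ, ∃ c : ℕ → ℝ, a ∈ A → (CofR ((N : ℝ) ^ ε) X c ∧ (∀ d, c d ≠ 0 → d ∈ T a) ∧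
        ∑ d ∈ T a, |Df f N a d| ≤
          |∑ p ∈ (Icc 1 N).filter (fun p => p.Prime ∧ z < p), f p * rf c X a p| +
            C3 * (z + X + (N : ℝ) ^ (1 - ε / 2))) := by
      intro a
      by_cases ha : a ∈ A
      · obtain ⟨c, h1, h2, h3⟩ := pr N z X (by omega) hXN f hf a (hA a ha) (T a)
          (fun d hd => ⟨(hT a ha d hd).2.1, (hT a ha d hd).2.2.1⟩)
        exact ⟨c, fun _ => ⟨h1, h2, h3⟩⟩
      · exact ⟨0, fun h => absurd h ha⟩
    choose c hc using hc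
    have hw25 : ∀ p ∈ (Icc 1 N).filter (fun p => p.Prime ∧ z < p),
        (1 : ℝ) ≤ 25 * (fun n : ℤ => Wt N n * nuS lam z n) (p : ℤ) := by
      intro p hp
      rw [mem_filter, mem_Icc] at hp
      exact BX.TaskBK.w_prime hlam (by omega) hp.2.1 hp.2.2 hp.1.2
    have hG0 : 0 ≤ C2 * N / Real.log z := by positivity
    have hO0 : 0 ≤ C1 * (N : ℝ) ^ (1 - n1) := by positivity
    have hdu := hDU (fun n : ℤ => Wt N n * nuS lam z n) (fun n => BX.TaskBK.w_nonneg N z lam n)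
      ((Icc 1 N).filter (fun p => p.Prime ∧ z < p)) hw25 A (fun a n => rf (c a) X a n) f
      (fun a _ a' _ => (hEX N z X (by omega) lam (c a) (c a') a a').2.1)
      (C2 * N / Real.log z) (C1 * (N : ℝ) ^ (1 - n1))
      (fun a ha => di N z X (by omega) hXN hz3 hz4 lam hlam (c a) (hc a ha).1 a (hA a ha))
      hG0 hO0
      (fun a ha a' ha' haa => tt N z D0 X hN (by omega) hz5 hXθ hD0 hXD' lam hlams (c a) (c a')
        (hc a ha).1 (hc a' ha').1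
        (fun d hd => ⟨(hT a ha d ((hc a ha).2.1 d hd)).1,
          (hT a ha d ((hc a ha).2.1 d hd)).2.2.2⟩)
        (fun d hd => ⟨(hT a' ha' d ((hc a' ha').2.1 d hd)).1,
          (hT a' ha' d ((hc a' ha').2.1 d hd)).2.2.2⟩) a a' (hA a ha) (hA a' ha') haa)
    have hFs : ∑ p ∈ (Icc 1 N).filter (fun p => p.Prime ∧ z < p), f p ^ 2 ≤ Q2 f N := by
      unfold Q2
      refine sum_le_sum_of_subset_of_nonneg ?_ fun _ _ _ => sq_nonneg _
      intro p hp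
      rw [mem_filter] at hp ⊢
      exact ⟨hp.1, hp.2.1⟩
    have hE : C3 * (z + X + (N : ℝ) ^ (1 - ε / 2)) ≤ 3 * C3 * (N : ℝ) ^ (1 - n2) := by
      have h1 : (z : ℝ) ≤ (N : ℝ) ^ (1 - n2) :=
        hz4.trans (Real.rpow_le_rpow_of_exponent_le hN1 (by linarith))
      have h2 : (X : ℝ) ≤ (N : ℝ) ^ (1 - n2) :=
        hXN'.trans (Real.rpow_le_rpow_of_exponent_le hN1 (by linarith))
      have h3 : (N : ℝ) ^ (1 - ε / 2) ≤ (N : ℝ) ^ (1 - n2) :=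
        Real.rpow_le_rpow_of_exponent_le hN1 (by linarith)
      nlinarith
    have hE0 : 0 ≤ C3 * (z + X + (N : ℝ) ^ (1 - ε / 2)) := by positivity
    obtain ⟨E, hEe⟩ : ∃ E : ℝ, E = C3 * (z + X + (N : ℝ) ^ (1 - ε / 2)) := ⟨_, rfl⟩
    have hSa : ∑ a ∈ A, (∑ d ∈ T a, |Df f N a d|) ^ 2 ≤
        2 * (∑ a ∈ A, (∑ p ∈ (Icc 1 N).filter (fun p => p.Prime ∧ z < p),
          f p * (fun (a n : ℤ) => rf (c a) X a n) a p) ^ 2) + 2 * A.card * E ^ 2 := by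
      calc ∑ a ∈ A, (∑ d ∈ T a, |Df f N a d|) ^ 2
          ≤ ∑ a ∈ A, (2 * (∑ p ∈ (Icc 1 N).filter (fun p => p.Prime ∧ z < p),
              f p * (fun (a n : ℤ) => rf (c a) X a n) a p) ^ 2 + 2 * E ^ 2) := by
            refine sum_le_sum fun a ha => ?_
            have h1 := (hc a ha).2.2
            rw [← hEe] at h1
            have h2 : (∑ d ∈ T a, |Df f N a d|) ^ 2 ≤
                (|∑ p ∈ (Icc 1 N).filter (fun p => p.Prime ∧ z < p), f p * rf (c a) X a p| + E) ^ 2 :=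
              pow_le_pow_left₀ (sum_nonneg fun d _ => abs_nonneg _) h1 2
            exact h2.trans (BX.TaskBK.two_sq _ _)
        _ = _ := by
            rw [sum_add_distrib, ← mul_sum, sum_const, nsmul_eq_mul]
            ring
    have hfin := num2 hNr he0 hC1 hC2 hC3 hη1 (by linarith : η ≤ 2 * n2)
      (Nat.cast_nonneg A.card) hlz (sum_nonneg fun p _ => sq_nonneg _) hFs (Q2_le hf N) hdu
      (hEe ▸ hE0) (hEe ▸ hE) hSa
    refine hfin.trans ?_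
    have hpos : (0 : ℝ) ≤ Q2 f N * (N / Real.log N) + A.card * (N : ℝ) ^ (2 - η) := by
      have := Q2_nonneg f N
      positivity
    have hM5 : (0 : ℝ) ≤ 4 * (M : ℝ) ^ 4 := by positivity
    exact mul_le_mul_of_nonneg_right (le_add_of_nonneg_right hM5) hpos

end Pool.Agent.W973.SG
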