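import Pool.Agent.W23.SG.Defs
import Pool.Agent.H442R2.BX.Rc
import Pool.Agent.H442R2.BX.Pb

/-!
SG project (owner helper23), task PBL: pointwise bounds for the linear forms.
Adapted from `Pool.Agent.H442R2.BX.RC` and `Pool.Agent.H442R2.BX.PB`.
-/

namespace Pool.Agent.W973.SG

open Finset
open Pool.Agent.H442R2
open Pool.Agent.H442R2.KF
open Pool.Agent.W23.DC
open Pool.Agent.W23.SG

/-- size of the form -/
theorem lf_le {N : ℕ} (hN : (1 : ℝ) ≤ N) {L : ℤ × ℕ} (hL : Fo N L) (n : ℤ) :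
    (((lf L n).natAbs : ℕ) : ℝ) ≤ (N : ℝ) ^ 3 * (1 + |(n : ℝ)| / N) := by
  have hN0 : (0 : ℝ) < N := by linarith
  have h1 : (((lf L n).natAbs : ℕ) : ℝ) = |(L.1 : ℝ) + L.2 * n| := by
    rw [Nat.cast_natAbs]
    unfold lf
    push_cast
    rfl
  rw [h1]
  have h2 : |(L.1 : ℝ) + L.2 * n| ≤ |(L.1 : ℝ)| + |(L.2 : ℝ) * n| := abs_add_le _ _
  have h3 : |(L.2 : ℝ) * n| = (L.2 : ℝ) * |(n : ℝ)| := by
    rw [abs_mul, abs_of_nonneg (Nat.cast_nonneg _)]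
  have h4 : (L.2 : ℝ) * |(n : ℝ)| ≤ (N : ℝ) ^ 2 * |(n : ℝ)| :=
    mul_le_mul_of_nonneg_right hL.b2 (abs_nonneg _)
  have h5 : (N : ℝ) ^ 3 * (1 + |(n : ℝ)| / N) = (N : ℝ) ^ 3 + (N : ℝ) ^ 2 * |(n : ℝ)| := by
    field_simp
  have h6 : (N : ℝ) ^ 2 ≤ (N : ℝ) ^ 3 := pow_le_pow_right₀ hN (by norm_num)
  have h7 := hL.a
  rw [h5]
  linarith

open BX.TaskRC in
/-- the number of rough divisors of a nonzero integer `m` with `|m| ≤ N³ B` -/
theorem rd_card_le {ε : ℝ} (hε : 0 < ε) {N : ℕ} (X : ℕ) (hN : Real.exp (4 / ε) ≤ (N : ℝ)) {B : ℝ}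
    (hB1 : 1 ≤ B) {m : ℤ} (hm : m ≠ 0) (hmB : ((m.natAbs : ℕ) : ℝ) ≤ (N : ℝ) ^ 3 * B) :
    ((BX.rd ((N : ℝ) ^ ε) X m).card : ℝ) ≤ Real.exp (3 / ε) * B ^ (1 / 4 : ℝ) := by
  have hN0 : (0 : ℝ) < (N : ℝ) := lt_of_lt_of_le (Real.exp_pos _) hN
  have hlog : 4 / ε ≤ Real.log N := by
    rw [Real.le_log_iff_exp_le hN0]; exact hN
  have hlog0 : 0 < Real.log N := lt_of_lt_of_le (by positivity) hlog
  have hεlog : 4 ≤ ε * Real.log N := by
    rw [div_le_iff₀ hε] at hlog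
    linarith
  have hN1' : (1 : ℝ) ≤ (N : ℝ) := by
    have : Real.exp 0 ≤ Real.exp (4 / ε) := Real.exp_le_exp.mpr (by positivity)
    rw [Real.exp_zero] at this
    linarith
  obtain ⟨y, hy⟩ : ∃ y : ℝ, y = (N : ℝ) ^ ε := ⟨_, rfl⟩
  rw [← hy]
  have hy1 : 1 ≤ y := by rw [hy]; exact Real.one_le_rpow hN1' hε.le
  obtain ⟨k, hk1, hk2⟩ := rr_card y hy1 m.natAbs (Int.natAbs_pos.mpr hm)
  have hB0 : 0 < B := by linarith
  have hk3 : (k : ℝ) * (ε * Real.log N) ≤ 3 * Real.log N + Real.log B := by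
    have h1 : Real.log (y ^ k) ≤ Real.log ((N : ℝ) ^ 3 * B) :=
      Real.log_le_log (by positivity) (hk1.trans hmB)
    rw [Real.log_pow, hy, Real.log_rpow hN0, Real.log_mul (by positivity) hB0.ne',
      Real.log_pow] at h1
    exact_mod_cast h1
  have hlB : 0 ≤ Real.log B := Real.log_nonneg hB1
  have hk4 : (k : ℝ) ≤ 3 / ε + Real.log B * (1 / 4) := by
    have hpos : 0 < ε * Real.log N := by positivity
    have h1 : (k : ℝ) ≤ (3 * Real.log N + Real.log B) / (ε * Real.log N) :=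
      (le_div_iff₀ hpos).mpr hk3
    have h2 : (3 * Real.log N + Real.log B) / (ε * Real.log N) =
        3 / ε + Real.log B / (ε * Real.log N) := by
      field_simp
    have h3 : Real.log B / (ε * Real.log N) ≤ Real.log B * (1 / 4) := by
      rw [div_eq_mul_one_div]
      refine mul_le_mul_of_nonneg_left ?_ hlB
      exact one_div_le_one_div_of_le (by norm_num) hεlog
    rw [h2] at h1
    linarith
  have hcard : ((BX.rd y X m).card : ℝ) ≤ (2 : ℝ) ^ k := by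
    have h1 := (card_le_card (rd_sub y X m hm)).trans hk2
    exact_mod_cast h1
  have h2k : (2 : ℝ) ^ k ≤ Real.exp k := by
    have h1 : (2 : ℝ) ≤ Real.exp 1 := by
      have := Real.add_one_le_exp (1 : ℝ)
      linarith
    calc (2 : ℝ) ^ k ≤ (Real.exp 1) ^ k := pow_le_pow_left₀ (by norm_num) h1 k
      _ = Real.exp k := by rw [← Real.exp_nat_mul, mul_one]
  calc ((BX.rd y X m).card : ℝ) ≤ Real.exp k := hcard.trans h2k
    _ ≤ Real.exp (3 / ε + Real.log B * (1 / 4)) := Real.exp_le_exp.mpr hk4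
    _ = Real.exp (3 / ε) * B ^ (1 / 4 : ℝ) := by
        rw [Real.exp_add, Real.rpow_def_of_pos hB0]

theorem abs_RL_le (y : ℝ) (X : ℕ) (L : ℤ × ℕ) (c : ℕ → ℝ) (hc : CofL y X L c) (n : ℤ) :
    |RL c X L n| ≤ ((BX.rd y X (lf L n)).card : ℝ) + ∑ d ∈ BX.roughs y X, 1 / (d : ℝ) := by
  classical
  unfold RL
  have h1 : ∀ d ∈ Icc 1 X, |c d * BX.dl d (lf L n)| ≤
      if BX.Rough y d then (if (d : ℤ) ∣ lf L n then 1 else 0) + 1 / (d : ℝ) else 0 := by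
    intro d _
    by_cases h0 : c d = 0
    · rw [h0, zero_mul, abs_zero]
      split_ifs <;> positivity
    · rw [if_pos (hc.supp d h0).2.1, abs_mul]
      have h2 := BX.TaskPB.abs_dl_le d (lf L n)
      calc |c d| * |BX.dl d (lf L n)| ≤ 1 * ((if (d : ℤ) ∣ lf L n then 1 else 0) + 1 / (d : ℝ)) :=
            mul_le_mul (hc.bd d) h2 (abs_nonneg _) zero_le_one
        _ = _ := one_mul _
  calc |∑ d ∈ Icc 1 X, c d * BX.dl d (lf L n)| ≤ ∑ d ∈ Icc 1 X, |c d * BX.dl d (lf L n)| :=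
        abs_sum_le_sum_abs _ _
    _ ≤ ∑ d ∈ Icc 1 X,
        if BX.Rough y d then (if (d : ℤ) ∣ lf L n then 1 else 0) + 1 / (d : ℝ) else 0 :=
        sum_le_sum h1
    _ = ∑ d ∈ BX.roughs y X, ((if (d : ℤ) ∣ lf L n then 1 else 0) + 1 / (d : ℝ)) := by
        unfold BX.roughs
        rw [sum_filter]
    _ = _ := by
        rw [sum_add_distrib]
        congr 1
        unfold BX.rd
        rw [sum_boole]

theorem PBL (hRA : BX.St_RA) : St_PBL := by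
  intro ε hε
  obtain ⟨C2, hC2, h2⟩ := hRA ε hε
  refine ⟨max ⌈Real.exp (4 / ε)⌉₊ 2, Real.exp (3 / ε) + C2, by positivity, ?_⟩
  intro N X hN hX L hL
  have hNe : Real.exp (4 / ε) ≤ (N : ℝ) := Nat.ceil_le.mp ((le_max_left _ _).trans hN)
  have hN2 : 2 ≤ N := (le_max_right _ _).trans hN
  have hN1 : (1 : ℝ) ≤ N := by exact_mod_cast (by omega : 1 ≤ N)
  have hB : ∀ n : ℤ, (1 : ℝ) ≤ 1 + |(n : ℝ)| / N := by
    intro n
    have : 0 ≤ |(n : ℝ)| / N := by positivity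
    linarith
  have hBr : ∀ n : ℤ, (1 : ℝ) ≤ (1 + |(n : ℝ)| / N) ^ (1 / 4 : ℝ) := fun n =>
    Real.one_le_rpow (hB n) (by norm_num)
  have hkey : ∀ n : ℤ, lf L n ≠ 0 →
      ((BX.rd ((N : ℝ) ^ ε) X (lf L n)).card : ℝ) ≤
        Real.exp (3 / ε) * (1 + |(n : ℝ)| / N) ^ (1 / 4 : ℝ) := fun n hn =>
    rd_card_le hε X hNe (hB n) hn (lf_le hN1 hL n)
  refine ⟨fun n hn => ?_, fun c hc n => ?_⟩
  · have h1 := hkey n hn
    have h3 := hBr n
    nlinarith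
  · unfold rL
    have h3 := hBr n
    split_ifs with hn
    · rw [abs_zero]
      positivity
    · have h4 := abs_RL_le _ X L c hc n
      have h1 := hkey n hn
      have h5 : ∑ d ∈ BX.roughs ((N : ℝ) ^ ε) X, 1 / (d : ℝ) ≤ C2 :=
        (sum_le_sum_of_subset_of_nonneg (BX.TaskPB.roughs_mono _ hX)
          fun _ _ _ => by positivity).trans (h2 N hN2)
      nlinarith

end Pool.Agent.W973.SG
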